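import Pool.Agent.R202.RS.Stm

/-!
# Project RS, piece RS-4
-/

set_option autoImplicit false

namespace Pool.Agent.R202.RS

namespace ArithAux

open Real

/-- the basic inequality -/
lemma basic {U L : ℝ} (hL : 0 < L) (hLU : L < U) :
    log (U - L) ≤ (1 + (goldenRatio - 1)) * log U - (goldenRatio - 1) * log L -
      (1 + 2 * (goldenRatio - 1)) * log goldenRatio := by
  have hφ : 0 < goldenRatio := goldenRatio_pos
  have hφ1 : 1 < goldenRatio := one_lt_goldenRatio
  have hsq : goldenRatio ^ 2 = goldenRatio + 1 := goldenRatio_sq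
  have hU : 0 < U := hL.trans hLU
  have hd : 0 < U - L := sub_pos.2 hLU
  have h1 : log ((U - L) / U * goldenRatio) ≤ (U - L) / U * goldenRatio - 1 :=
    log_le_sub_one_of_pos (by positivity)
  have h2 : log (L / U * goldenRatio ^ 2) ≤ L / U * goldenRatio ^ 2 - 1 :=
    log_le_sub_one_of_pos (by positivity)
  rw [log_mul (by positivity) (by positivity), log_div hd.ne' hU.ne'] at h1
  rw [log_mul (by positivity) (by positivity), log_div hL.ne' hU.ne', log_pow] at h2
  push_cast at h2
  have h3 := mul_le_mul_of_nonneg_left h2 (sub_nonneg.2 hφ1.le)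
  have h4 : (U - L) / U = 1 - L / U := by
    field_simp
  rw [h4] at h1
  have h5 : (goldenRatio - 1) * (L / U * goldenRatio ^ 2 - 1) =
      L / U * goldenRatio - (goldenRatio - 1) := by
    have h6 : (goldenRatio - 1) * goldenRatio ^ 2 = goldenRatio := by
      have h7 : (goldenRatio - 1) * goldenRatio = 1 := by linear_combination hsq
      calc (goldenRatio - 1) * goldenRatio ^ 2 = (goldenRatio - 1) * goldenRatio * goldenRatio := by
            ring
        _ = goldenRatio := by rw [h7, one_mul]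
    linear_combination (L / U) * h6
  rw [h5] at h3
  linarith

end ArithAux

open ArithAux in
theorem arith : ArithStm := by
  intro ι _ _ u l e A hA hu hl he hue h1 h2
  have hφ1 : 1 < Real.goldenRatio := Real.one_lt_goldenRatio
  have hA0 : 0 < A := lt_of_lt_of_le one_pos hA
  have hu0 : ∀ i, 0 < u i := fun i => lt_of_lt_of_le one_pos (hu i)
  have hT : 0 ≤ Real.log A := Real.log_nonneg hA
  have hlogU : Real.log (A * ∏ i, u i) = Real.log A + ∑ i, Real.log (u i) := by
    rw [Real.log_mul hA0.ne' (Finset.prod_ne_zero_iff.2 fun i _ => (hu0 i).ne'),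
      Real.log_prod (fun i _ => (hu0 i).ne')]
  have e1 : 0 ≤ 2 * Real.log A + ∑ i, Real.log (e i) := by
    have h3 := Real.log_nonneg h1
    rw [Real.log_mul (pow_ne_zero 2 hA0.ne') (Finset.prod_ne_zero_iff.2 fun i _ => (he i).ne'),
      Real.log_pow, Real.log_prod (fun i _ => (he i).ne')] at h3
    exact_mod_cast h3
  have e2 : 0 ≤ Real.log A + (∑ i, Real.log (u i) + ∑ i, Real.log (l i)) := by
    have h3 := Real.log_nonneg h2
    rw [Real.log_mul hA0.ne' (Finset.prod_ne_zero_iff.2 fun i _ => (mul_pos (hu0 i) (hl i)).ne'),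
      Real.log_prod (fun i _ => (mul_pos (hu0 i) (hl i)).ne')] at h3
    have h4 : ∑ i, Real.log (u i * l i) = ∑ i, Real.log (u i) + ∑ i, Real.log (l i) := by
      rw [← Finset.sum_add_distrib]
      exact Finset.sum_congr rfl fun i _ => Real.log_mul (hu0 i).ne' (hl i).ne'
    rwa [h4] at h3
  have e3 : ∀ i, Real.log (e i) ≤ 2 * (1 + (Real.goldenRatio - 1)) * Real.log (u i) -
      2 * (Real.goldenRatio - 1) * Real.log (l i) -
      (1 + 2 * (Real.goldenRatio - 1)) * Real.log Real.goldenRatio := by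
    intro i
    have h3 : l i ^ 2 < u i ^ 2 := by
      have := he i
      have := hue i
      linarith
    have h4 := basic (pow_pos (hl i) 2) h3
    have h5 : Real.log (e i) ≤ Real.log (u i ^ 2 - l i ^ 2) := Real.log_le_log (he i) (hue i)
    rw [Real.log_pow, Real.log_pow] at h4
    push_cast at h4
    linarith
  have e4 := Finset.sum_le_sum fun i (_ : i ∈ Finset.univ) => e3 i
  rw [Finset.sum_sub_distrib, Finset.sum_sub_distrib, ← Finset.mul_sum, ← Finset.mul_sum,
    Finset.sum_const, Finset.card_univ, nsmul_eq_mul] at e4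
  rw [hlogU]
  set S := ∑ i, Real.log (u i)
  set Λ := ∑ i, Real.log (l i)
  set T := Real.log A
  set φ := Real.goldenRatio
  set n : ℝ := (Fintype.card ι : ℝ)
  have hβ : 0 ≤ φ - 1 := by linarith
  have e5 : n * ((1 + 2 * (φ - 1)) * Real.log φ) ≤ 2 * (1 + 2 * (φ - 1)) * (T + S) := by
    have h6 : 0 ≤ (φ - 1) * (T + (S + Λ)) := mul_nonneg hβ e2
    have h7 : 0 ≤ (φ - 1) * T := mul_nonneg hβ hT
    linarith
  have e6 : (1 + 2 * (φ - 1)) * (n * (Real.log φ / 2)) ≤ (1 + 2 * (φ - 1)) * (T + S) := by
    linarith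
  exact le_of_mul_le_mul_left e6 (by linarith)

end Pool.Agent.R202.RS
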