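import Mathlib
import Pool.Agent.R701.UG.Rel

/-!
# Project RS: statements (helper202)
-/

set_option autoImplicit false

open Polynomial ComplexConjugate

namespace Pool.Agent.R202.RS

/-- `K` is totally real or a CM field -/
def RealOrCM (K : IntermediateField ℚ ℂ) : Prop :=
  ∃ c : K →+* K, ∀ (σ : K →+* ℂ) (y : K), conj (σ y) = σ (c y)

/-- RS-1 -/
def PragueStm : Prop :=
  ∀ (b : ℂ) (Q R : ℂ[X]), Q.Monic → (∀ n, IsIntegral ℤ ((C b * Q * R).coeff n)) →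
    ∀ i n, IsIntegral ℤ ((C (b * Q.coeff i) * R).coeff n)

/-- RS-2 -/
def NormPolyStm : Prop :=
  ∀ (K : Type) [Field K] [NumberField K] [Algebra K ℂ] (z : ℂ) (g : ℤ[X]), Irreducible g →
    aeval z g = 0 → ∃ m : ℕ, 0 < m ∧
      m * g.natDegree = (minpoly K z).natDegree * Fintype.card (K →+* ℂ) ∧
      (g.map (Int.castRingHom ℂ)) ^ m =
        C ((g.leadingCoeff : ℂ) ^ m) * ∏ σ : K →+* ℂ, (minpoly K z).map σ

/-- RS-3 -/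
def LowerStm : Prop :=
  ∀ (K : Type) [Field K] [NumberField K] (c : K →+* K),
    (∀ (σ : K →+* ℂ) (y : K), conj (σ y) = σ (c y)) → ∀ (f : K[X]), f.Monic →
    ∀ (b : ℤ), b ≠ 0 → (∀ n, ∃ t : ℤ, (C (b : ℂ) * ∏ σ : K →+* ℂ, f.map σ).coeff n = t) →
    (∀ k, (f - C (f.coeff 0) * (f.map c).reverse).coeff k ≠ 0 →
      1 ≤ |(b : ℝ)| ^ 2 *
        ∏ σ : K →+* ℂ, ‖σ ((f - C (f.coeff 0) * (f.map c).reverse).coeff k)‖) ∧
    (f.coeff 0 ≠ 0 → 1 ≤ |(b : ℝ)| * ∏ σ : K →+* ℂ, ‖σ (f.coeff 0)‖)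

/-- RS-4 -/
def ArithStm : Prop :=
  ∀ (ι : Type) [Fintype ι] [Nonempty ι] (u l e : ι → ℝ) (A : ℝ), 1 ≤ A →
    (∀ i, 1 ≤ u i) → (∀ i, 0 < l i) → (∀ i, 0 < e i) → (∀ i, e i ≤ u i ^ 2 - l i ^ 2) →
    1 ≤ A ^ 2 * ∏ i, e i → 1 ≤ A * ∏ i, (u i * l i) →
    (Fintype.card ι : ℝ) * (Real.log Real.goldenRatio / 2) ≤ Real.log (A * ∏ i, u i)

/-- RS-5 -/
def ReduceStm : Prop :=
  ∀ (F E : IntermediateField ℚ ℂ), E ≤ F → Algebra.IsAlgebraic ℚ E → RealOrCM E →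
    ∀ z : ℂ, IsAlgebraic ℚ z →
    (∀ i, ((minpoly F z).coeff i : ℂ) ∈ E) →
    ∃ K : IntermediateField ℚ ℂ, FiniteDimensional ℚ K ∧ RealOrCM K ∧
      (minpoly K z).natDegree = (minpoly F z).natDegree ∧
      ∀ w : ℂ, aeval w (minpoly K z) = aeval w (minpoly F z)

/-- RS-7 -/
def MainKStm : Prop :=
  ∀ (K : Type) [Field K] [NumberField K] [Algebra K ℂ] (c : K →+* K),
    (∀ (σ : K →+* ℂ) (y : K), conj (σ y) = σ (c y)) → ∀ (z : ℂ), z ≠ 0 → ∀ (g : ℤ[X]),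
    Irreducible g → aeval z g = 0 → aeval (conj z)⁻¹ (minpoly K z) ≠ 0 →
    Real.log Real.goldenRatio / 2 / ((minpoly K z).natDegree : ℝ) ≤
      Real.log (g.map (Int.castRingHom ℂ)).mahlerMeasure / (g.natDegree : ℝ)

/-- RS-6 -/
def UnitaryStm : Prop :=
  ∀ (F : IntermediateField ℚ ℂ) (S : Set ℂ), RealOrCM F →
    (∀ s ∈ S, IsAlgebraic ℚ s ∧ ∀ w ∈ (minpoly ℚ s).aroots ℂ, ‖w‖ = 1) →
    RealOrCM (F ⊔ IntermediateField.adjoin ℚ S)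

end Pool.Agent.R202.RS
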