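import Mathlib

/-!
# Project RS: the constant is attained at the golden ratio (helper202)
-/

set_option autoImplicit false

open Polynomial ComplexConjugate

namespace Pool.Agent.R202.RS

/-- RS-8 -/
def SharpStm : Prop :=
  ∀ F : IntermediateField ℚ ℂ, (∀ z : ℂ, (∃ n : ℕ, 1 ≤ n ∧ z ^ n = 1) → z ∈ F) →
    ((Real.goldenRatio : ℝ) : ℂ) ∈ F ∧
    (minpoly F ((Real.goldenRatio : ℝ) : ℂ)).natDegree = 1 ∧
    aeval (conj ((Real.goldenRatio : ℝ) : ℂ))⁻¹ (minpoly F ((Real.goldenRatio : ℝ) : ℂ)) ≠ 0 ∧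
    Irreducible (X ^ 2 - X - 1 : ℤ[X]) ∧
    aeval ((Real.goldenRatio : ℝ) : ℂ) (X ^ 2 - X - 1 : ℤ[X]) = 0 ∧
    Real.log ((X ^ 2 - X - 1 : ℤ[X]).map (Int.castRingHom ℂ)).mahlerMeasure /
      ((X ^ 2 - X - 1 : ℤ[X]).natDegree : ℝ) = Real.log Real.goldenRatio / 2

end Pool.Agent.R202.RS
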