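import Mathlib
import Pool.Agent.R202.RS.Stm
import Pool.Agent.R202.RS.Stm2

/-!
# Project RS: assembly
-/

set_option autoImplicit false

open Polynomial ComplexConjugate

namespace Pool.Agent.R202.RS

theorem main_F (hK : MainKStm) (hR : ReduceStm) (F E : IntermediateField ℚ ℂ) (hEF : E ≤ F)
    (hEa : Algebra.IsAlgebraic ℚ E) (hE : RealOrCM E) (z : ℂ) (h0 : z ≠ 0)
    (hz : IsAlgebraic ℚ z) (hc : ∀ i, ((minpoly F z).coeff i : ℂ) ∈ E)
    (hne : aeval (conj z)⁻¹ (minpoly F z) ≠ 0) (g : ℤ[X]) (hg : Irreducible g)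
    (hgz : aeval z g = 0) :
    Real.log Real.goldenRatio / 2 / ((minpoly F z).natDegree : ℝ) ≤
      Real.log (g.map (Int.castRingHom ℂ)).mahlerMeasure / (g.natDegree : ℝ) := by
  obtain ⟨K, hfin, ⟨c, hcc⟩, hdeg, hev⟩ := hR F E hEF hEa hE z hz hc
  have : NumberField K := { to_charZero := inferInstance, to_finiteDimensional := hfin }
  have h := hK K c hcc z h0 g hg hgz (by rw [hev]; exact hne)
  rw [hdeg] at h
  exact h

theorem conj_pow_unit {z w : ℂ} (hz : IsAlgebraic ℚ z) {n : ℕ} (hn : 1 ≤ n)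
    (hg : ∀ v ∈ (minpoly ℚ (z ^ n)).aroots ℂ, ‖v‖ = 1) (hw : w ∈ (minpoly ℚ z).aroots ℂ) :
    ‖w‖ = 1 := by
  have h1 : aeval w (minpoly ℚ z) = 0 := (Polynomial.mem_aroots.1 hw).2
  have h2 : aeval (z ^ n) (minpoly ℚ (z ^ n)) = 0 := minpoly.aeval _ _
  have h3 : minpoly ℚ z ∣ (minpoly ℚ (z ^ n)).comp (X ^ n) := by
    apply minpoly.dvd
    rw [Polynomial.aeval_comp, map_pow, aeval_X, h2]
  have h4 : aeval (w ^ n) (minpoly ℚ (z ^ n)) = 0 := by
    obtain ⟨q, hq⟩ := h3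
    have h5 := congrArg (aeval w) hq
    rw [map_mul, h1, zero_mul, Polynomial.aeval_comp, map_pow, aeval_X] at h5
    exact h5
  have hzn : IsIntegral ℚ (z ^ n) := (hz.isIntegral).pow n
  have h6 := hg (w ^ n) (Polynomial.mem_aroots.2 ⟨minpoly.ne_zero hzn, h4⟩)
  rw [norm_pow] at h6
  exact (pow_eq_one_iff_of_nonneg (norm_nonneg _) (by omega)).1 h6

end Pool.Agent.R202.RS
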