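import Mathlib
import Pool.Agent.R202.RS.Asm

set_option autoImplicit false

open Polynomial ComplexConjugate

namespace Pool.Agent.R202.RS

/-- The division group of `Γ`, as a set of complex numbers. -/
def divGroup (Γ : Subgroup ℂˣ) : Set ℂ :=
  {z : ℂ | z ≠ 0 ∧ ∃ n : ℕ, 1 ≤ n ∧ ∃ g ∈ Γ, (g : ℂ) = z ^ n}

/-- The field `ℚ(Γ_div)`. -/
noncomputable def divField (Γ : Subgroup ℂˣ) : IntermediateField ℚ ℂ :=
  IntermediateField.adjoin ℚ (divGroup Γ)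

theorem isAlgebraic_of_mem_divGroup {Γ : Subgroup ℂˣ} (hΓ : ∀ g ∈ Γ, IsAlgebraic ℚ (g : ℂ))
    {z : ℂ} (hz : z ∈ divGroup Γ) : IsAlgebraic ℚ z := by
  obtain ⟨_, n, hn, g, hg, he⟩ := hz
  have h := hΓ g hg
  rw [he] at h
  exact IsAlgebraic.of_pow (by omega) h

theorem isAlgebraic_divField {Γ : Subgroup ℂˣ} (hΓ : ∀ g ∈ Γ, IsAlgebraic ℚ (g : ℂ)) :
    Algebra.IsAlgebraic ℚ (divField Γ) :=
  IntermediateField.isAlgebraic_adjoin fun _ hx => (isAlgebraic_of_mem_divGroup hΓ hx).isIntegral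

theorem isAlgebraic_of_le {F E : IntermediateField ℚ ℂ} (h : E ≤ F)
    (hF : Algebra.IsAlgebraic ℚ F) : Algebra.IsAlgebraic ℚ E := by
  refine ⟨fun x => ?_⟩
  have h1 := hF.isAlgebraic (⟨x, h x.2⟩ : F)
  have h2 : IsAlgebraic ℚ (x : ℂ) := (isAlgebraic_algebraMap_iff (A := ℂ)
    (algebraMap F ℂ).injective).2 h1
  exact (isAlgebraic_algebraMap_iff (A := ℂ) (algebraMap E ℂ).injective).1 h2

theorem divField_realOrCM (hU : UnitaryStm) (Γ : Subgroup ℂˣ)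
    (hΓ : ∀ g ∈ Γ, IsAlgebraic ℚ (g : ℂ) ∧ ∀ w ∈ (minpoly ℚ (g : ℂ)).aroots ℂ, ‖w‖ = 1) :
    RealOrCM (divField Γ) := by
  have hbot : RealOrCM ⊥ := by
    refine ⟨RingHom.id _, ?_⟩
    intro σ y
    obtain ⟨q, hq⟩ := (IntermediateField.mem_bot).1 y.2
    have h1 : y = algebraMap ℚ (⊥ : IntermediateField ℚ ℂ) q := Subtype.ext hq.symm
    rw [h1, RingHom.id_apply]
    have h2 : σ (algebraMap ℚ (⊥ : IntermediateField ℚ ℂ) q) = (q : ℂ) := by simp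
    rw [h2]
    simp
  have h := hU ⊥ (divGroup Γ) hbot (fun s hs => by
    have halg := isAlgebraic_of_mem_divGroup (fun g hg => (hΓ g hg).1) hs
    refine ⟨halg, fun w hw => ?_⟩
    obtain ⟨_, n, hn, g, hg, he⟩ := hs
    exact conj_pow_unit halg hn (he ▸ (hΓ g hg).2) hw)
  rw [bot_sup_eq] at h
  exact h

theorem rootsOfUnity_mem_divField (Γ : Subgroup ℂˣ) (z : ℂ) (h : ∃ n : ℕ, 1 ≤ n ∧ z ^ n = 1) :
    z ∈ divField Γ := by
  obtain ⟨n, hn, h⟩ := h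
  apply IntermediateField.subset_adjoin
  refine ⟨?_, n, hn, 1, Γ.one_mem, by rw [h]; rfl⟩
  rintro rfl
  rw [zero_pow (by omega)] at h
  exact zero_ne_one h

end Pool.Agent.R202.RS
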