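import Pool.Agent.R202.RS.Stm

/-!
# RS-3: integrality and lower bounds
-/

set_option autoImplicit false

open Polynomial ComplexConjugate

namespace Pool.Agent.R202.RS

namespace LowerAux

theorem cor (hP : PragueStm) {ι : Type} (s : Finset ι) (Q : ι → ℂ[X]) (hQ : ∀ i, (Q i).Monic) :
    ∀ b : ℂ, (∀ n, IsIntegral ℤ ((C b * ∏ i ∈ s, Q i).coeff n)) → ∀ k : ι → ℕ,
      IsIntegral ℤ (b * ∏ i ∈ s, (Q i).coeff (k i)) := by
  classical
  induction s using Finset.induction_on with
  | empty =>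
    intro b hb k
    have h1 := hb 0
    simpa using h1
  | insert a s ha ih =>
    intro b hb k
    have h1 : ∀ n, IsIntegral ℤ ((C b * Q a * ∏ i ∈ s, Q i).coeff n) := by
      intro n
      have h2 := hb n
      rw [Finset.prod_insert ha, ← mul_assoc] at h2
      exact h2
    have h3 := ih (b * (Q a).coeff (k a)) (hP b (Q a) _ (hQ a) h1 (k a)) k
    rw [Finset.prod_insert ha, ← mul_assoc]
    exact h3

theorem conj_int {x : ℂ} (h : IsIntegral ℤ x) : IsIntegral ℤ (conj x) :=
  map_isIntegral_int (starRingEnd ℂ) h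

/-- a nonzero rational number integral over the integers has absolute value at least one -/
theorem one_le_rat (q : ℚ) (hq : q ≠ 0) (h : IsIntegral ℤ ((q : ℚ) : ℂ)) : 1 ≤ ‖((q : ℚ) : ℂ)‖ := by
  have h1 : IsIntegral ℤ q := by
    have h2 : IsIntegral ℤ (algebraMap ℚ ℂ q) := by
      rw [eq_ratCast]
      exact h
    exact (isIntegral_algebraMap_iff (algebraMap ℚ ℂ).injective).1 h2
  obtain ⟨n, hn⟩ := IsIntegrallyClosed.isIntegral_iff.1 h1
  rw [eq_intCast] at hn
  have hn0 : n ≠ 0 := by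
    rintro rfl
    apply hq
    rw [← hn]
    simp
  rw [← hn]
  push_cast
  rw [Complex.norm_intCast]
  have h3 : 1 ≤ |n| := Int.one_le_abs hn0
  exact_mod_cast h3

theorem prod_norm (K : Type) [Field K] [NumberField K] (x : K) :
    ∏ σ : K →+* ℂ, σ x = ((Algebra.norm ℚ x : ℚ) : ℂ) := by
  have h1 := Algebra.norm_eq_prod_embeddings ℚ ℂ x
  rw [eq_ratCast] at h1
  rw [h1]
  exact Fintype.prod_equiv (RingHom.equivRatAlgHom K ℂ) _ _ fun σ => rfl

end LowerAux

open LowerAux in
theorem lower (hP : PragueStm) : LowerStm := by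
  classical
  intro K _ _ c hc f hf b hb hint
  obtain ⟨P, hPdef⟩ : ∃ P : (K →+* ℂ) → ℂ[X], P = fun σ => f.map σ := ⟨_, rfl⟩
  have hPm : ∀ σ, (P σ).Monic := fun σ => by rw [hPdef]; exact hf.map σ
  have hint' : ∀ n, IsIntegral ℤ ((C (b : ℂ) * ∏ σ : K →+* ℂ, P σ).coeff n) := by
    intro n
    rw [hPdef]
    obtain ⟨t, ht⟩ := hint n
    rw [ht]
    exact isIntegral_algebraMap (R := ℤ) (x := t)
  have hcoef : ∀ (k : (K →+* ℂ) → ℕ), IsIntegral ℤ ((b : ℂ) * ∏ σ : K →+* ℂ, σ (f.coeff (k σ))) := by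
    intro k
    have h1 := cor hP Finset.univ P hPm (b : ℂ) hint' k
    simpa [hPdef, coeff_map] using h1
  constructor
  · intro k hk
    obtain ⟨j, hj⟩ : ∃ j, ((f.map c).reverse).coeff k = c (f.coeff j) := by
      refine ⟨revAt (f.map c).natDegree k, ?_⟩
      rw [coeff_reverse, coeff_map]
    obtain ⟨w, hw⟩ : ∃ w, w = (f - C (f.coeff 0) * (f.map c).reverse).coeff k := ⟨_, rfl⟩
    rw [← hw] at hk ⊢
    have hw2 : w = f.coeff k - f.coeff 0 * c (f.coeff j) := by
      rw [hw, coeff_sub, coeff_C_mul, hj]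
    have hσ : ∀ σ : K →+* ℂ, σ w = σ (f.coeff k) + (-(σ (f.coeff 0)) * conj (σ (f.coeff j))) := by
      intro σ
      rw [hw2, map_sub, map_mul, ← hc]
      ring
    have hI : IsIntegral ℤ ((b : ℂ) ^ 2 * ∏ σ : K →+* ℂ, σ w) := by
      have h1 : (b : ℂ) ^ 2 * ∏ σ : K →+* ℂ, σ w =
          ∑ A ∈ (Finset.univ : Finset (K →+* ℂ)).powerset,
            (((b : ℂ) * ∏ σ : K →+* ℂ, σ (f.coeff (if σ ∈ A then k else 0))) *
            ((-1) ^ (Finset.univ \ A).card *
            conj ((b : ℂ) * ∏ σ : K →+* ℂ, σ (f.coeff (if σ ∈ A then f.natDegree else j))))) := by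
        rw [Finset.prod_congr rfl fun σ _ => hσ σ, Finset.prod_add, Finset.mul_sum]
        refine Finset.sum_congr rfl fun A _ => ?_
        have e1 : ∏ σ : K →+* ℂ, σ (f.coeff (if σ ∈ A then k else 0)) =
            (∏ σ ∈ A, σ (f.coeff k)) * ∏ σ ∈ Finset.univ \ A, σ (f.coeff 0) := by
          rw [← Finset.prod_sdiff (Finset.subset_univ A), mul_comm]
          congr 1
          · exact Finset.prod_congr rfl fun σ hσA => by rw [if_pos hσA]
          · refine Finset.prod_congr rfl fun σ hσA => ?_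
            rw [Finset.mem_sdiff] at hσA
            rw [if_neg hσA.2]
        have e2 : ∏ σ : K →+* ℂ, σ (f.coeff (if σ ∈ A then f.natDegree else j)) =
            ∏ σ ∈ Finset.univ \ A, σ (f.coeff j) := by
          rw [← Finset.prod_sdiff (Finset.subset_univ A)]
          have e3 : ∏ σ ∈ A, σ (f.coeff (if σ ∈ A then f.natDegree else j)) = 1 := by
            refine Finset.prod_eq_one fun σ hσA => ?_
            rw [if_pos hσA, hf.coeff_natDegree, map_one]
          rw [e3, mul_one]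
          refine Finset.prod_congr rfl fun σ hσA => ?_
          rw [Finset.mem_sdiff] at hσA
          rw [if_neg hσA.2]
        rw [e1, e2, map_mul, map_prod, Finset.prod_mul_distrib, Finset.prod_neg]
        have e4 : conj (b : ℂ) = b := by simp
        rw [e4]
        ring
      rw [h1]
      refine IsIntegral.sum _ fun A _ => ?_
      refine (hcoef fun σ => if σ ∈ A then k else 0).mul (IsIntegral.mul ?_
        (conj_int (hcoef fun σ => if σ ∈ A then f.natDegree else j)))
      exact (IsIntegral.neg isIntegral_one).pow _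
    have h2 : (b : ℂ) ^ 2 * ∏ σ : K →+* ℂ, σ w = (((b : ℚ) ^ 2 * Algebra.norm ℚ w : ℚ) : ℂ) := by
      rw [prod_norm]
      push_cast
      ring
    have h3 : ((b : ℚ) ^ 2 * Algebra.norm ℚ w : ℚ) ≠ 0 := by
      refine mul_ne_zero (pow_ne_zero _ (by exact_mod_cast hb)) ?_
      rw [Algebra.norm_ne_zero_iff]
      exact hk
    rw [h2] at hI
    have h4 := one_le_rat _ h3 hI
    rw [← h2, norm_mul, norm_pow, norm_prod, Complex.norm_intCast] at h4
    exact h4
  · intro h0
    obtain ⟨t, ht⟩ := hint 0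
    have h1 : (C (b : ℂ) * ∏ σ : K →+* ℂ, f.map σ).coeff 0 =
        (b : ℂ) * ∏ σ : K →+* ℂ, σ (f.coeff 0) := by
      rw [coeff_C_mul, coeff_zero_prod]
      simp [coeff_map]
    rw [h1] at ht
    have h2 : (t : ℂ) ≠ 0 := by
      rw [← ht]
      refine mul_ne_zero (by exact_mod_cast hb) (Finset.prod_ne_zero_iff.2 fun σ _ => ?_)
      exact (map_ne_zero σ).2 h0
    have h3 : t ≠ 0 := by exact_mod_cast h2
    have h4 : ‖(t : ℂ)‖ = |(b : ℝ)| * ∏ σ : K →+* ℂ, ‖σ (f.coeff 0)‖ := by
      rw [← ht, norm_mul, norm_prod, Complex.norm_intCast]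
    rw [← h4, Complex.norm_intCast]
    have h5 : 1 ≤ |t| := Int.one_le_abs h3
    exact_mod_cast h5

end Pool.Agent.R202.RS
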