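import Pool.Agent.R202.RS.Stm

/-!
# Project RS, piece RS-7: the main inequality over a number field
-/

set_option autoImplicit false

open Polynomial ComplexConjugate

namespace Pool.Agent.R202.RS

namespace MainKAux

open Pool.Agent.R701.UG Pool.Agent.H338R2

theorem pl_roots {P : ℂ[X]} (hP : P.Monic) : P = pl P.roots :=
  (IsAlgClosed.splits P).eq_prod_roots_of_monic hP

theorem norm_pl_zero (R : Multiset ℂ) : ‖(pl R).coeff 0‖ = up R * lo R := by
  rw [up_mul_lo]
  induction R using Multiset.induction_on with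
  | empty => simp [pl]
  | cons a R ih =>
    rw [pl] at ih ⊢
    rw [Multiset.map_cons, Multiset.prod_cons, Polynomial.mul_coeff_zero, norm_mul, ih,
      Multiset.map_cons, Multiset.prod_cons]
    simp

/-- the Mahler measure of a monic polynomial -/
theorem mahler_monic {P : ℂ[X]} (hP : P.Monic) : P.mahlerMeasure = up P.roots := by
  rw [mahlerMeasure_eq_leadingCoeff_mul_prod_roots, hP.leadingCoeff, norm_one, one_mul]
  rfl

theorem mahler_pow (P : ℂ[X]) (m : ℕ) : (P ^ m).mahlerMeasure = P.mahlerMeasure ^ m := by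
  induction m with
  | zero => simp
  | succ m ih => rw [pow_succ, mahlerMeasure_mul, ih, pow_succ]

theorem mahler_prod {ι : Type} (s : Finset ι) (F : ι → ℂ[X]) :
    (∏ i ∈ s, F i).mahlerMeasure = ∏ i ∈ s, (F i).mahlerMeasure := by
  classical
  induction s using Finset.induction_on with
  | empty => simp
  | insert a s ha ih => rw [Finset.prod_insert ha, Finset.prod_insert ha, mahlerMeasure_mul, ih]

/-- the inequality for one embedding -/
theorem one_emb {K : Type} [Field K] (c : K →+* K) (σ : K →+* ℂ)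
    (hc : ∀ y : K, conj (σ y) = σ (c y)) (F : K[X]) (hFm : F.Monic) (hF0 : F.coeff 0 ≠ 0)
    (k : ℕ) (hak : (F - C (F.coeff 0) * (F.map c).reverse).coeff k ≠ 0)
    (hlt : ∀ i < k, (F - C (F.coeff 0) * (F.map c).reverse).coeff i = 0) :
    ‖σ ((F - C (F.coeff 0) * (F.map c).reverse).coeff k)‖ ≤
      up (F.map σ).roots ^ 2 - lo (F.map σ).roots ^ 2 ∧
    ‖σ (F.coeff 0)‖ = up (F.map σ).roots * lo (F.map σ).roots := by
  set w : K[X] := F - C (F.coeff 0) * (F.map c).reverse with hw
  set R := (F.map σ).roots with hR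
  have hFσ : F.map σ = pl R := pl_roots (hFm.map σ)
  have hrev : ((F.map c).reverse).map σ = pr R := by
    have h1 : ((F.map c).reverse).map σ = ((F.map c).map σ).reverse := by
      ext n
      rw [Polynomial.coeff_reverse, Polynomial.coeff_map, Polynomial.coeff_map,
        Polynomial.coeff_reverse]
      simp only [Polynomial.natDegree_map, Polynomial.coeff_map]
    have h2 : (F.map c).map σ = (F.map σ).map (starRingEnd ℂ) := by
      rw [Polynomial.map_map, Polynomial.map_map]
      congr 1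
      ext y
      exact (hc y).symm
    have h3 : (F.map σ).map (starRingEnd ℂ) =
        ((R.map (starRingEnd ℂ)).map (fun a => (X - C a : ℂ[X]))).prod := by
      rw [hFσ, pl, Polynomial.map_multiset_prod, Multiset.map_map, Multiset.map_map]
      congr 1
      apply Multiset.map_congr rfl
      intro a _
      simp
    rw [h1, h2, h3, reverse_prod, Multiset.map_map]
    rfl
  have hwσ : w.map σ = pl R - C (σ (F.coeff 0)) * pr R := by
    rw [hw, Polynomial.map_sub, Polynomial.map_mul, Polynomial.map_C, hrev, hFσ]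
  have hR0 : ∀ a ∈ R, a ≠ 0 := by
    rintro a ha rfl
    have h1 := (Polynomial.mem_roots'.1 ha).2
    rw [Polynomial.IsRoot, ← Polynomial.coeff_zero_eq_eval_zero, coeff_map] at h1
    exact hF0 ((map_eq_zero_iff σ σ.injective).1 h1)
  have hmain := rel_ineq R hR0 (w.map σ) (σ (F.coeff 0)) hwσ (by rw [← hFσ, coeff_map]) k
    (by rw [coeff_map]; exact fun h => hak ((map_eq_zero_iff σ σ.injective).1 h))
    (fun i hi => by rw [coeff_map, hlt i hi, map_zero])
  rw [coeff_map] at hmain
  refine ⟨hmain, ?_⟩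
  rw [← norm_pl_zero, ← hFσ, coeff_map]

end MainKAux

open MainKAux Pool.Agent.R701.UG in
/-- RS-7 -/
theorem mainK (h2 : NormPolyStm) (h3 : LowerStm) (h4 : ArithStm) : MainKStm := by
  intro K _ _ _ c hc z h0 g hg hgz hne
  have hg0 : g ≠ 0 := hg.ne_zero
  have hzK : IsIntegral K z := by
    have h5 : IsAlgebraic K z := by
      refine ⟨g.map (algebraMap ℤ K), ?_, ?_⟩
      · rw [Ne, Polynomial.map_eq_zero_iff]
        · exact hg0
        · exact FaithfulSMul.algebraMap_injective ℤ K
      · rw [aeval_map_algebraMap]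
        exact hgz
    exact isAlgebraic_iff_isIntegral.1 h5
  set F := minpoly K z with hF
  have hFm : F.Monic := minpoly.monic hzK
  have hd : 0 < F.natDegree := minpoly.natDegree_pos hzK
  obtain ⟨m, hm, hdeg, hpow⟩ := h2 K z g hg hgz
  rw [← hF] at hdeg hpow
  obtain ⟨b, hb⟩ : ∃ b : ℤ, b = g.leadingCoeff ^ m := ⟨_, rfl⟩
  have hlc : g.leadingCoeff ≠ 0 := leadingCoeff_ne_zero.2 hg0
  have hb0 : b ≠ 0 := by rw [hb]; exact pow_ne_zero _ hlc
  have hbC : ((g.leadingCoeff : ℂ) ^ m) = (b : ℂ) := by rw [hb]; push_cast; rfl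
  have hb1 : (1 : ℝ) ≤ |(b : ℝ)| := by
    have := Int.one_le_abs hb0
    exact_mod_cast this
  rw [hbC] at hpow
  obtain ⟨hA, hB⟩ := h3 K c hc F hFm b hb0 (fun n => ⟨(g ^ m).coeff n, by
    rw [← hpow, ← Polynomial.map_pow, coeff_map]
    rfl⟩)
  set w : K[X] := F - C (F.coeff 0) * (F.map c).reverse with hw
  have hz' : conj z ≠ 0 := fun h => h0 ((map_eq_zero_iff _ (starRingEnd ℂ).injective).1 h)
  have hw0 : w ≠ 0 := by
    intro h
    apply hne
    have h1 : F = C (F.coeff 0) * (F.map c).reverse := sub_eq_zero.1 h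
    rw [h1, map_mul, aeval_C]
    have h2 : aeval (conj z)⁻¹ (F.map c).reverse = 0 := by
      let _ : Invertible (conj z) := invertibleOfNonzero hz'
      have h3 := (Polynomial.eval₂_reverse_eq_zero_iff (algebraMap K ℂ) (conj z) (F.map c)).2
      rw [invOf_eq_inv] at h3
      apply h3
      rw [Polynomial.eval₂_map]
      have e : (algebraMap K ℂ).comp c = (starRingEnd ℂ).comp (algebraMap K ℂ) := by
        ext y
        exact (hc (algebraMap K ℂ) y).symm
      rw [e, ← Polynomial.hom_eval₂]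
      have : eval₂ (algebraMap K ℂ) z F = 0 := minpoly.aeval K z
      rw [this, map_zero]
    rw [h2, mul_zero]
  obtain ⟨k, hk⟩ : ∃ k, k = w.natTrailingDegree := ⟨_, rfl⟩
  have hak : w.coeff k ≠ 0 := by
    rw [hk]
    exact mt Polynomial.trailingCoeff_eq_zero.1 hw0
  have hlt : ∀ i < k, w.coeff i = 0 := fun i hi =>
    Polynomial.coeff_eq_zero_of_lt_natTrailingDegree (by rw [← hk]; exact hi)
  have hF0 : F.coeff 0 ≠ 0 := minpoly.coeff_zero_ne_zero hzK h0
  have hemb : ∀ σ : K →+* ℂ, ‖σ (w.coeff k)‖ ≤ up (F.map σ).roots ^ 2 - lo (F.map σ).roots ^ 2 ∧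
      ‖σ (F.coeff 0)‖ = up (F.map σ).roots * lo (F.map σ).roots := fun σ =>
    one_emb c σ (hc σ) F hFm hF0 k hak hlt
  have hne' : Nonempty (K →+* ℂ) := ⟨algebraMap K ℂ⟩
  have hσ0 : ∀ σ : K →+* ℂ, 0 < ‖σ (F.coeff 0)‖ := fun σ =>
    norm_pos_iff.2 fun h => hF0 ((map_eq_zero_iff σ σ.injective).1 h)
  have har := h4 (K →+* ℂ) (fun σ => up (F.map σ).roots) (fun σ => lo (F.map σ).roots)
    (fun σ => ‖σ (w.coeff k)‖) |(b : ℝ)| hb1 (fun σ => one_le_up _) (fun σ => by
      have h5 := hσ0 σ
      rw [(hemb σ).2] at h5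
      exact pos_of_mul_pos_right h5 (zero_le_one.trans (one_le_up _)))
    (fun σ => norm_pos_iff.2 fun h => hak ((map_eq_zero_iff σ σ.injective).1 h))
    (fun σ => (hemb σ).1) (hA k hak) (by
      have h5 := hB hF0
      refine h5.trans (le_of_eq ?_)
      congr 1
      exact Finset.prod_congr rfl fun σ _ => (hemb σ).2)
  -- the Mahler measure
  have hM : |(b : ℝ)| * ∏ σ : K →+* ℂ, up (F.map σ).roots = (g.map (Int.castRingHom ℂ)).mahlerMeasure ^ m := by
    rw [← mahler_pow, hpow, mahlerMeasure_mul, mahlerMeasure_const, mahler_prod, Complex.norm_intCast]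
    congr 1
    exact Finset.prod_congr rfl fun σ _ => (mahler_monic (hFm.map σ)).symm
  have hpos : 0 < g.natDegree := by
    by_contra h
    have h5 : g.natDegree = 0 := by omega
    rw [h5, mul_zero] at hdeg
    have h6 : 0 < Fintype.card (K →+* ℂ) := Fintype.card_pos
    have h7 : 0 < F.natDegree * Fintype.card (K →+* ℂ) := Nat.mul_pos hd h6
    omega
  have har' : (Fintype.card (K →+* ℂ) : ℝ) * (Real.log Real.goldenRatio / 2) ≤
      m * Real.log (g.map (Int.castRingHom ℂ)).mahlerMeasure := by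
    rw [← Real.log_pow, ← hM]
    exact har
  have hdr : (0 : ℝ) < F.natDegree := by exact_mod_cast hd
  have hNr : (0 : ℝ) < g.natDegree := by exact_mod_cast hpos
  have hmr : (0 : ℝ) < m := by exact_mod_cast hm
  have hdegr : (m : ℝ) * g.natDegree = F.natDegree * Fintype.card (K →+* ℂ) := by exact_mod_cast hdeg
  rw [div_le_div_iff₀ hdr hNr]
  apply le_of_mul_le_mul_left _ hmr
  calc (m : ℝ) * (Real.log Real.goldenRatio / 2 * g.natDegree) =
      F.natDegree * ((Fintype.card (K →+* ℂ) : ℝ) * (Real.log Real.goldenRatio / 2)) := by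
        linear_combination (Real.log Real.goldenRatio / 2) * hdegr
    _ ≤ F.natDegree * (m * Real.log (g.map (Int.castRingHom ℂ)).mahlerMeasure) :=
        mul_le_mul_of_nonneg_left har' hdr.le
    _ = (m : ℝ) * (Real.log (g.map (Int.castRingHom ℂ)).mahlerMeasure * F.natDegree) := by ring

end Pool.Agent.R202.RS
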