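import Pool.Agent.R202.RS.Stm

set_option autoImplicit false

open Polynomial ComplexConjugate

namespace Pool.Agent.R202.RS

namespace NormPolyAux

variable {K : Type} [Field K] [NumberField K]

/-- the product of the conjugates -/
noncomputable def PP (f : K[X]) : ℂ[X] := ∏ σ : K →+* ℂ, f.map σ

theorem eval_PP (f : K[X]) (t : ℚ) :
    (PP f).eval (t : ℂ) = ((Algebra.norm ℚ (f.eval (t : K)) : ℚ) : ℂ) := by
  have h1 : ((Algebra.norm ℚ (f.eval (t : K)) : ℚ) : ℂ) =
      ∏ σ : K →ₐ[ℚ] ℂ, σ (f.eval (t : K)) := by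
    have := Algebra.norm_eq_prod_embeddings ℚ ℂ (f.eval (t : K))
    simpa using this
  rw [h1, ← Fintype.prod_equiv (RingHom.equivRatAlgHom K ℂ) (fun φ => φ (f.eval (t : K)))
    (fun φ => φ (f.eval (t : K))) fun _ => by simp [RingHom.equivRatAlgHom_apply]]
  rw [PP, eval_prod]
  refine Finset.prod_congr rfl fun σ _ => ?_
  have h2 : ((t : ℚ) : ℂ) = σ (t : K) := by simp
  rw [h2, eval_map, eval₂_at_apply]

theorem exists_rat (f : K[X]) :
    ∃ P0 : ℚ[X], P0.map (algebraMap ℚ ℂ) = PP f := by
  classical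
  set N := (PP f).natDegree with hN
  set s : Finset ℕ := Finset.range (N + 1) with hs
  let v : ℕ → ℚ := fun i => i
  have hv : Set.InjOn v s := fun a _ b _ h => by simpa [v] using h
  let r : ℕ → ℚ := fun i => Algebra.norm ℚ (f.eval ((v i : ℚ) : K))
  refine ⟨Lagrange.interpolate s v r, ?_⟩
  let w : ℕ → ℂ := fun i => (v i : ℂ)
  have hw : Set.InjOn w s := fun a _ b _ h => by simpa [w, v] using h
  refine Polynomial.eq_of_degrees_lt_of_eval_index_eq (v := w) s hw ?_ ?_ ?_
  · rw [degree_map]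
    exact Lagrange.degree_interpolate_lt r hv
  · rw [hs, Finset.card_range]
    exact lt_of_le_of_lt degree_le_natDegree (by exact_mod_cast Nat.lt_succ_self _)
  · intro i hi
    have h1 : w i = algebraMap ℚ ℂ (v i) := by simp [w]
    rw [h1, eval_map, eval₂_at_apply, Lagrange.eval_interpolate_at_node r hv hi]
    have := eval_PP f (v i)
    simpa using this.symm

end NormPolyAux

open NormPolyAux

theorem normPoly : NormPolyStm := by
  intro K _ _ _ z g hg hz
  have hdeg : g.natDegree ≠ 0 := by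
    intro h
    rw [Polynomial.eq_C_of_natDegree_eq_zero h] at hz hg
    rw [aeval_C] at hz
    have h0 : g.coeff 0 = 0 := by simpa using hz
    rw [h0] at hg
    simp at hg
  have hprim : g.IsPrimitive := hg.isPrimitive hdeg
  have hirr : Irreducible (g.map (Int.castRingHom ℚ)) :=
    (IsPrimitive.Int.irreducible_iff_irreducible_map_cast hprim).1 hg
  have hzQ : aeval z (g.map (Int.castRingHom ℚ)) = 0 := by
    rw [← hz, aeval_def, eval₂_map, aeval_def]
    congr 1
  have hq := minpoly.eq_of_irreducible hirr hzQ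
  set q := minpoly ℚ z with hqdef
  have hint : IsIntegral ℚ z :=
    isAlgebraic_iff_isIntegral.1 ⟨g.map (Int.castRingHom ℚ), hirr.ne_zero, hzQ⟩
  have hintK : IsIntegral K z := hint.tower_top
  set f := minpoly K z with hf
  have hfm : f.Monic := minpoly.monic hintK
  have hqm : q.Monic := minpoly.monic hint
  have hdvd : ∀ σ : K →+* ℂ, f.map σ ∣ q.map (algebraMap ℚ ℂ) := by
    intro σ
    have h1 : f ∣ q.map (algebraMap ℚ K) := minpoly.dvd_map_of_isScalarTower ℚ K z
    have h2 := Polynomial.map_dvd σ h1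
    rw [Polynomial.map_map] at h2
    have h3 : σ.comp (algebraMap ℚ K) = algebraMap ℚ ℂ := RingHom.ext_rat _ _
    rwa [h3] at h2
  obtain ⟨P0, hP0⟩ := exists_rat f
  have hPm : (PP f).Monic := by
    unfold PP
    exact monic_prod_of_monic _ _ fun σ _ => hfm.map σ
  have hP0m : P0.Monic := by
    rw [← hP0] at hPm
    exact monic_of_injective (algebraMap ℚ ℂ).injective hPm
  have hPd : PP f ∣ (q.map (algebraMap ℚ ℂ)) ^ Fintype.card (K →+* ℂ) := by
    unfold PP
    have : (q.map (algebraMap ℚ ℂ)) ^ Fintype.card (K →+* ℂ) =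
        ∏ _σ : K →+* ℂ, q.map (algebraMap ℚ ℂ) := by
      rw [Finset.prod_const, Finset.card_univ]
    rw [this]
    exact Finset.prod_dvd_prod_of_dvd _ _ fun σ _ => hdvd σ
  have hP0d : P0 ∣ q ^ Fintype.card (K →+* ℂ) := by
    rw [← map_dvd_map' (algebraMap ℚ ℂ), hP0, Polynomial.map_pow]
    exact hPd
  obtain ⟨m, -, hm⟩ := (dvd_prime_pow (minpoly.irreducible hint).prime _).1 hP0d
  have hm' : P0 = q ^ m := eq_of_monic_of_associated hP0m (hqm.pow m) hm
  have hgq : g.map (Int.castRingHom ℚ) = C (g.leadingCoeff : ℚ) * q := by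
    have hlc : (g.map (Int.castRingHom ℚ)).leadingCoeff = (g.leadingCoeff : ℚ) := by
      rw [leadingCoeff_map_of_injective (Int.castRingHom ℚ).injective_int]
      simp
    have hlc0 : (g.leadingCoeff : ℚ) ≠ 0 := by
      rw [← hlc]
      exact leadingCoeff_ne_zero.2 hirr.ne_zero
    rw [← hq, hlc, mul_comm, mul_assoc, ← C_mul, inv_mul_cancel₀ hlc0, C_1, mul_one]
  have hnat : g.natDegree = q.natDegree := by
    have h1 : (g.map (Int.castRingHom ℚ)).natDegree = g.natDegree :=
      natDegree_map_eq_of_injective (Int.castRingHom ℚ).injective_int g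
    rw [← h1, hgq, natDegree_C_mul]
    have hlc0 : g.leadingCoeff ≠ 0 := leadingCoeff_ne_zero.2 hg.ne_zero
    exact_mod_cast hlc0
  have hdegP : (PP f).natDegree = f.natDegree * Fintype.card (K →+* ℂ) := by
    unfold PP
    rw [natDegree_prod_of_monic _ _ fun σ _ => hfm.map σ]
    simp [natDegree_map, mul_comm]
  have hdegm : m * g.natDegree = f.natDegree * Fintype.card (K →+* ℂ) := by
    rw [← hdegP, ← hP0, hm', Polynomial.map_pow, natDegree_pow, natDegree_map, hnat]
  refine ⟨m, ?_, hdegm, ?_⟩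
  · rcases Nat.eq_zero_or_pos m with h | h
    · exfalso
      rw [h, zero_mul] at hdegm
      have h1 : 0 < f.natDegree := minpoly.natDegree_pos hintK
      have h2 : 0 < Fintype.card (K →+* ℂ) := Fintype.card_pos_iff.2 ⟨algebraMap K ℂ⟩
      have := Nat.mul_pos h1 h2
      omega
    · exact h
  · have h1 : g.map (Int.castRingHom ℂ) = C (g.leadingCoeff : ℂ) * q.map (algebraMap ℚ ℂ) := by
      have h2 : (g.map (Int.castRingHom ℚ)).map (algebraMap ℚ ℂ) =
          g.map (Int.castRingHom ℂ) := by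
        rw [Polynomial.map_map]
        congr 1
      rw [← h2, hgq, Polynomial.map_mul, map_C]
      simp
    rw [h1, mul_pow, ← C_pow]
    congr 1
    rw [← Polynomial.map_pow, ← hm', hP0]
    rfl

end Pool.Agent.R202.RS
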