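import Pool.Agent.R202.RS.Stm

/-!
# Project RS, piece RS-1: Dedekind's Prague theorem over the complex numbers
-/

set_option autoImplicit false

open Polynomial ComplexConjugate

namespace Pool.Agent.R202.RS

namespace PragueAux

/-- All coefficients are integral. -/
def IC (p : ℂ[X]) : Prop := ∀ n, IsIntegral ℤ (p.coeff n)

theorem ic_sub {p q : ℂ[X]} (hp : IC p) (hq : IC q) : IC (p - q) := fun n => by
  rw [coeff_sub]
  exact (hp n).sub (hq n)

theorem ic_add {p q : ℂ[X]} (hp : IC p) (hq : IC q) : IC (p + q) := fun n => by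
  rw [coeff_add]
  exact (hp n).add (hq n)

theorem ic_X {p : ℂ[X]} (hp : IC p) : IC (X * p) := fun n => by
  cases n with
  | zero => rw [coeff_X_mul_zero]; exact isIntegral_zero
  | succ n => rw [coeff_X_mul]; exact hp n

theorem ic_mono {a : ℂ} (ha : IsIntegral ℤ a) (n : ℕ) : IC (C a * X ^ n) := fun k => by
  rw [coeff_C_mul_X_pow]
  split_ifs
  · exact ha
  · exact isIntegral_zero

theorem ic_zero : IC 0 := fun n => by
  rw [coeff_zero]
  exact isIntegral_zero

theorem lc_root {p : ℂ[X]} (hp : IC p) {t : ℂ} (ht : p.eval t = 0) :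
    IsIntegral ℤ (p.leadingCoeff * t) := by
  have hl : p ∈ Polynomial.lifts (algebraMap (integralClosure ℤ ℂ) ℂ) := by
    rw [Polynomial.lifts_iff_coeff_lifts]
    intro n
    exact ⟨⟨p.coeff n, hp n⟩, rfl⟩
  obtain ⟨p', hp'⟩ := hl
  have hp'' : p'.map (algebraMap (integralClosure ℤ ℂ) ℂ) = p := hp'
  have h1 : aeval t p' = 0 := by
    rw [← eval_map_algebraMap, hp'', ht]
  have h2 := isIntegral_leadingCoeff_smul p' t h1
  have h3 : p'.leadingCoeff • t = p.leadingCoeff * t := by
    rw [Algebra.smul_def, ← hp'', leadingCoeff_map_of_injective]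
    exact Subtype.val_injective
  rw [h3] at h2
  exact isIntegral_trans _ h2

theorem root_removal (t : ℂ) : ∀ (N : ℕ) (q : ℂ[X]), q.degree < N → IC ((X - C t) * q) → IC q := by
  intro N
  induction N with
  | zero =>
    intro q hq _
    have : q = 0 := by
      rw [← degree_eq_bot]
      exact Nat.WithBot.lt_zero_iff.1 hq
    rw [this]
    exact ic_zero
  | succ N ih =>
    intro q hq h
    by_cases h0 : q = 0
    · rw [h0]; exact ic_zero
    have hlc : ((X - C t) * q).leadingCoeff = q.leadingCoeff := by
      rw [leadingCoeff_mul, leadingCoeff_X_sub_C, one_mul]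
    have ha : IsIntegral ℤ q.leadingCoeff := by
      rw [← hlc]
      exact h _
    have hat : IsIntegral ℤ (q.leadingCoeff * t) := by
      rw [← hlc]
      refine lc_root h ?_
      rw [eval_mul, eval_sub, eval_X, eval_C, sub_self, zero_mul]
    have h1 : IC ((X - C t) * (q - C q.leadingCoeff * X ^ q.natDegree)) := by
      have e : (X - C t) * (q - C q.leadingCoeff * X ^ q.natDegree) =
          (X - C t) * q - C q.leadingCoeff * X ^ (q.natDegree + 1) +
            C (q.leadingCoeff * t) * X ^ q.natDegree := by
        rw [C_mul, pow_succ]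
        ring
      rw [e]
      exact ic_add (ic_sub h (ic_mono ha _)) (ic_mono hat _)
    have hd : (q - C q.leadingCoeff * X ^ q.natDegree).degree < (N : WithBot ℕ) := by
      rw [self_sub_C_mul_X_pow]
      have h2 := degree_eraseLead_lt h0
      have h3 : q.degree ≤ (N : WithBot ℕ) := by
        rw [degree_eq_natDegree h0] at hq ⊢
        have : q.natDegree < N + 1 := by exact_mod_cast hq
        exact_mod_cast Nat.lt_succ_iff.1 this
      exact lt_of_lt_of_le h2 h3
    have h4 := ih _ hd h1
    have h5 := ic_add h4 (ic_mono ha q.natDegree)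
    rwa [sub_add_cancel] at h5

theorem removal {t : ℂ} {q : ℂ[X]} (h : IC ((X - C t) * q)) : IC q :=
  root_removal t (q.natDegree + 1) q
    (lt_of_le_of_lt degree_le_natDegree (by exact_mod_cast Nat.lt_succ_self _)) h

theorem step {b t : ℂ} {R : ℂ[X]} (h : IC (C b * ((X - C t) * R))) :
    IC (C b * R) ∧ IC (C (b * t) * R) := by
  have h1 : IC (C b * R) := by
    refine removal (t := t) ?_
    rwa [mul_left_comm] at h
  refine ⟨h1, ?_⟩
  have e : C (b * t) * R = X * (C b * R) - C b * ((X - C t) * R) := by
    rw [C_mul]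
    ring
  rw [e]
  exact ic_sub (ic_X h1) h

theorem main (T : Multiset ℂ) : ∀ (b : ℂ) (R : ℂ[X]),
    IC (C b * ((T.map fun x => X - C x).prod * R)) →
      ∀ i, IC (C (b * (T.map fun x => X - C x).prod.coeff i) * R) := by
  induction T using Multiset.induction_on with
  | empty =>
    intro b R h i
    rw [Multiset.map_zero, Multiset.prod_zero, one_mul] at h
    rw [Multiset.map_zero, Multiset.prod_zero, coeff_one]
    split_ifs
    · rwa [mul_one]
    · rw [mul_zero, C_0, zero_mul]
      exact ic_zero
  | cons t T ih =>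
    intro b R h i
    rw [Multiset.map_cons, Multiset.prod_cons, mul_assoc] at h
    obtain ⟨h1, h2⟩ := step h
    have h3 := ih b R h1
    have h4 := ih (b * t) R h2
    rw [Multiset.map_cons, Multiset.prod_cons, sub_mul, coeff_sub, coeff_C_mul]
    cases i with
    | zero =>
      rw [coeff_X_mul_zero]
      have e : C (b * (0 - t * (T.map fun x => X - C x).prod.coeff 0)) * R =
          0 - C (b * t * (T.map fun x => X - C x).prod.coeff 0) * R := by
        simp only [C_mul, C_sub, C_0]
        ring
      rw [e]
      exact ic_sub ic_zero (h4 0)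
    | succ i =>
      rw [coeff_X_mul]
      have e : C (b * ((T.map fun x => X - C x).prod.coeff i -
          t * (T.map fun x => X - C x).prod.coeff (i + 1))) * R =
          C (b * (T.map fun x => X - C x).prod.coeff i) * R -
          C (b * t * (T.map fun x => X - C x).prod.coeff (i + 1)) * R := by
        simp only [C_mul, C_sub]
        ring
      rw [e]
      exact ic_sub (h3 i) (h4 (i + 1))

end PragueAux

open PragueAux in
/-- RS-1 -/
theorem prague : PragueStm := by
  intro b Q R hQ h i n
  have hQ' := (IsAlgClosed.splits Q).eq_prod_roots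
  rw [hQ.leadingCoeff, C_1, one_mul] at hQ'
  have h1 : IC (C b * ((Q.roots.map fun x => X - C x).prod * R)) := by
    rw [← hQ', ← mul_assoc]
    exact h
  have h2 := main Q.roots b R h1 i
  rw [← hQ'] at h2
  exact h2 n

end Pool.Agent.R202.RS
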