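import Pool.Agent.R202.RS.Stm

/-!
# RS-5: descent of a minimal polynomial to a number field
-/

set_option autoImplicit false

open Polynomial ComplexConjugate

namespace Pool.Agent.R202.RS

namespace ReduceAux

theorem ext_hom (K E : Type) [Field K] [Field E] [Algebra ℚ K] [Algebra ℚ E]
    [Algebra.IsAlgebraic ℚ E] (i : K →+* E) (σ : K →+* ℂ) : ∃ τ : E →+* ℂ, τ.comp i = σ := by
  let _ := i.toAlgebra
  let _ := σ.toAlgebra
  have : IsScalarTower ℚ K E := IsScalarTower.of_algebraMap_eq' (Subsingleton.elim _ _)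
  have : Algebra.IsAlgebraic K E := Algebra.IsAlgebraic.tower_top (K := ℚ) K
  exact ⟨(IsAlgClosed.lift : E →ₐ[K] ℂ).toRingHom,
    RingHom.ext fun y => AlgHom.commutes (IsAlgClosed.lift : E →ₐ[K] ℂ) y⟩

/-- complex conjugation as a rational algebra homomorphism -/
noncomputable def cj : ℂ →ₐ[ℚ] ℂ := RingHom.toRatAlgHom (starRingEnd ℂ)

theorem cj_apply (z : ℂ) : cj z = conj z := rfl

end ReduceAux

open ReduceAux in
theorem reduce : ReduceStm := by
  classical
  intro F E hEF hE hCM z hz hco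
  obtain ⟨cE, hcE⟩ := hCM
  have hstab : ∀ y : E, conj (y : ℂ) = (cE y : ℂ) := fun y => hcE (algebraMap E ℂ) y
  have hstab' : ∀ y ∈ E, conj y ∈ E := by
    intro y hy
    have h1 := hstab ⟨y, hy⟩
    change conj y = _ at h1
    rw [h1]
    exact (cE ⟨y, hy⟩).2
  obtain ⟨f, hfdef⟩ : ∃ f, f = minpoly F z := ⟨_, rfl⟩
  rw [← hfdef] at hco ⊢
  obtain ⟨S, hS⟩ : ∃ S : Finset ℂ, S = (Finset.range (f.natDegree + 1)).image
    fun i => ((f.coeff i : F) : ℂ) := ⟨_, rfl⟩
  obtain ⟨T, hT⟩ : ∃ T : Set ℂ, T = (S : Set ℂ) ∪ cj '' (S : Set ℂ) := ⟨_, rfl⟩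
  have hTfin : T.Finite := by
    rw [hT]
    exact (Finset.finite_toSet S).union ((Finset.finite_toSet S).image _)
  have hSE : ∀ y ∈ S, y ∈ E := by
    intro y hy
    rw [hS, Finset.mem_image] at hy
    obtain ⟨i, -, rfl⟩ := hy
    exact hco i
  have hTE : T ⊆ (E : Set ℂ) := by
    rw [hT]
    rintro y (hy | ⟨x, hx, rfl⟩)
    · exact hSE y hy
    · exact hstab' x (hSE x hx)
  have hTcj : cj '' T = T := by
    have hinv : ∀ x, cj (cj x) = x := fun x => by rw [cj_apply, cj_apply, Complex.conj_conj]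
    rw [hT, Set.image_union, Set.image_image]
    simp only [hinv, Set.image_id']
    exact Set.union_comm _ _
  have hKE : IntermediateField.adjoin ℚ T ≤ E := IntermediateField.adjoin_le_iff.2 hTE
  have hfd : FiniteDimensional ℚ (IntermediateField.adjoin ℚ T) := by
    have : Finite T := hTfin
    refine IntermediateField.finiteDimensional_adjoin fun x hx => ?_
    have h1 : IsAlgebraic ℚ (⟨x, hTE hx⟩ : E) := Algebra.IsAlgebraic.isAlgebraic _
    have h2 : IsAlgebraic ℚ (algebraMap E ℂ ⟨x, hTE hx⟩) := h1.algebraMap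
    exact h2.isIntegral
  obtain ⟨K, hK⟩ : ∃ K : IntermediateField ℚ ℂ, K = IntermediateField.adjoin ℚ T := ⟨_, rfl⟩
  rw [← hK] at hKE hfd
  have hKcj : ∀ y ∈ K, conj y ∈ K := by
    intro y hy
    have h1 : K.map cj = K := by
      rw [hK, IntermediateField.adjoin_map, hTcj]
    rw [← h1]
    exact ⟨y, hy, rfl⟩
  have hKF : K ≤ F := hKE.trans hEF
  -- the coefficients
  have hcoK : ∀ i, ((f.coeff i : F) : ℂ) ∈ K := by
    intro i
    by_cases hi : i ≤ f.natDegree
    · rw [hK]
      apply IntermediateField.subset_adjoin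
      rw [hT]
      left
      rw [hS]
      simp only [Finset.coe_image, Set.mem_image, Finset.mem_coe, Finset.mem_range]
      exact ⟨i, by omega, rfl⟩
    · rw [coeff_eq_zero_of_natDegree_lt (by omega)]
      exact K.zero_mem
  have hzF : IsIntegral F z := by
    have h1 : IsAlgebraic F z := hz.tower_top F
    exact h1.isIntegral
  have hfm : f.Monic := by rw [hfdef]; exact minpoly.monic hzF
  have hfz : aeval z f = 0 := by rw [hfdef]; exact minpoly.aeval F z
  obtain ⟨i, hi⟩ : ∃ i : K →+* F, i = (IntermediateField.inclusion hKF).toRingHom := ⟨_, rfl⟩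
  have hicomp : (algebraMap F ℂ).comp i = algebraMap K ℂ := by
    rw [hi]
    rfl
  have hmem : f ∈ lifts i := by
    rw [lifts_iff_coeff_lifts]
    intro n
    refine ⟨⟨(f.coeff n : ℂ), hcoK n⟩, ?_⟩
    rw [hi]
    rfl
  obtain ⟨f0, hf0, hf0d, hf0m⟩ := lifts_and_natDegree_eq_and_monic hmem hfm
  have hae : ∀ (q : K[X]) (w : ℂ), aeval w q = aeval w (q.map i) := by
    intro q w
    rw [aeval_def, aeval_def, eval₂_map, hicomp]
  have hmin : f0 = minpoly K z := by
    refine minpoly.unique K z hf0m (by rw [hae, hf0]; exact hfz) ?_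
    intro q hq hqz
    have h1 : degree f ≤ degree (q.map i) := by
      rw [hfdef]
      exact minpoly.min F z (hq.map i) (by rw [← hae]; exact hqz)
    have h2 : degree (q.map i) = degree q := degree_map q i
    have h3 : degree f = degree f0 := by rw [← hf0, degree_map]
    rw [← h3, ← h2]
    exact h1
  refine ⟨K, hfd, ?_, ?_, ?_⟩
  · refine ⟨((starRingEnd ℂ).comp (algebraMap K ℂ)).codRestrict K.toSubfield
      (fun y => hKcj _ y.2), ?_⟩
    intro σ y
    have := hE
    obtain ⟨τ, hτ⟩ := ext_hom K E (IntermediateField.inclusion hKE).toRingHom σ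
    have h1 : ∀ x : K, σ x = τ ⟨(x : ℂ), hKE x.2⟩ := by
      intro x
      rw [← hτ]
      rfl
    rw [h1 y, hcE, h1]
    congr 1
    apply Subtype.ext
    rw [← hstab]
    rfl
  · rw [← hmin, hf0d]
  · intro w
    rw [← hmin, hae, hf0]

end Pool.Agent.R202.RS
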