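import Pool.Agent.R202.RS.Stm2

/-!
# Project RS, piece RS-8: the constant is attained at the golden ratio
-/

set_option autoImplicit false

open Polynomial ComplexConjugate

namespace Pool.Agent.R202.RS

theorem sharp_poly_monic : (X ^ 2 - X - 1 : ℤ[X]).Monic := by
  monicity!

theorem sharp_poly_natDegree : (X ^ 2 - X - 1 : ℤ[X]).natDegree = 2 := by
  compute_degree!

theorem sharp_map : (X ^ 2 - X - 1 : ℤ[X]).map (Int.castRingHom ℂ) =
    (X - C ((Real.goldenRatio : ℝ) : ℂ)) * (X - C ((Real.goldenConj : ℝ) : ℂ)) := by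
  have h1 : ((Real.goldenRatio : ℝ) : ℂ) + ((Real.goldenConj : ℝ) : ℂ) = 1 := by
    exact_mod_cast Real.goldenRatio_add_goldenConj
  have h2 : ((Real.goldenRatio : ℝ) : ℂ) * ((Real.goldenConj : ℝ) : ℂ) = -1 := by
    exact_mod_cast Real.goldenRatio_mul_goldenConj
  have e1 : (X - C ((Real.goldenRatio : ℝ) : ℂ)) * (X - C ((Real.goldenConj : ℝ) : ℂ)) =
      X ^ 2 - C (((Real.goldenRatio : ℝ) : ℂ) + ((Real.goldenConj : ℝ) : ℂ)) * X +
        C (((Real.goldenRatio : ℝ) : ℂ) * ((Real.goldenConj : ℝ) : ℂ)) := by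
    rw [C_add, C_mul]
    ring
  rw [e1, h1, h2]
  simp only [Polynomial.map_sub, Polynomial.map_pow, Polynomial.map_X, Polynomial.map_one, C_1,
    C_neg, one_mul]
  ring

theorem sharp_irr : Irreducible (X ^ 2 - X - 1 : ℤ[X]) := by
  rw [sharp_poly_monic.irreducible_iff_roots_eq_zero_of_degree_le_three
    (by rw [sharp_poly_natDegree]) (by rw [sharp_poly_natDegree]; norm_num)]
  rw [Multiset.eq_zero_iff_forall_notMem]
  intro n hn
  have h1 := isRoot_of_mem_roots hn
  rw [IsRoot.def] at h1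
  simp only [eval_sub, eval_pow, eval_X, eval_one] at h1
  have h2 : n * (n - 1) = 1 := by linear_combination h1
  have h3 : Even (n * (n - 1)) := by
    rcases Int.even_or_odd n with h | h
    · exact h.mul_right _
    · exact (h.sub_odd odd_one).mul_left _
  rw [h2] at h3
  exact absurd h3 (by decide)

theorem sharp : SharpStm := by
  intro F hF
  have hsum : ((Real.goldenRatio : ℝ) : ℂ) + ((Real.goldenConj : ℝ) : ℂ) = 1 := by
    exact_mod_cast Real.goldenRatio_add_goldenConj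
  have hmul : ((Real.goldenRatio : ℝ) : ℂ) * ((Real.goldenConj : ℝ) : ℂ) = -1 := by
    exact_mod_cast Real.goldenRatio_mul_goldenConj
  have hmem : ((Real.goldenRatio : ℝ) : ℂ) ∈ F := by
    obtain ⟨z, hz⟩ : ∃ z : ℂ, IsPrimitiveRoot z 5 :=
      ⟨_, Complex.isPrimitiveRoot_exp 5 (by norm_num)⟩
    have hzF : z ∈ F := hF z ⟨5, by norm_num, hz.pow_eq_one⟩
    have h5 : z ^ 5 = 1 := hz.pow_eq_one
    have hg := hz.geom_sum_eq_zero (by norm_num)
    simp only [Finset.sum_range_succ, Finset.sum_range_zero, zero_add, pow_zero, pow_one] at hg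
    have ha : -(z + z ^ 4) ∈ F := F.neg_mem (F.add_mem hzF (F.pow_mem hzF 4))
    have h1 : (-(z + z ^ 4) - ((Real.goldenRatio : ℝ) : ℂ)) *
        (-(z + z ^ 4) - ((Real.goldenConj : ℝ) : ℂ)) = 0 := by
      have e1 : (-(z + z ^ 4) - ((Real.goldenRatio : ℝ) : ℂ)) *
          (-(z + z ^ 4) - ((Real.goldenConj : ℝ) : ℂ)) =
          (z + z ^ 4) ^ 2 + (z + z ^ 4) * (((Real.goldenRatio : ℝ) : ℂ) +
            ((Real.goldenConj : ℝ) : ℂ)) +
            ((Real.goldenRatio : ℝ) : ℂ) * ((Real.goldenConj : ℝ) : ℂ) := by ring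
      rw [e1, hsum, hmul]
      linear_combination hg + (2 + z ^ 3) * h5
    rcases mul_eq_zero.1 h1 with h | h
    · rw [sub_eq_zero] at h
      rw [← h]
      exact ha
    · rw [sub_eq_zero] at h
      have h2 : ((Real.goldenRatio : ℝ) : ℂ) = 1 - (-(z + z ^ 4)) := by
        rw [h]
        linear_combination hsum
      rw [h2]
      exact F.sub_mem F.one_mem ha
  have hmp : minpoly F ((Real.goldenRatio : ℝ) : ℂ) =
      X - C (⟨((Real.goldenRatio : ℝ) : ℂ), hmem⟩ : F) :=
    minpoly.eq_X_sub_C ℂ (⟨((Real.goldenRatio : ℝ) : ℂ), hmem⟩ : F)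
  refine ⟨hmem, ?_, ?_, sharp_irr, ?_, ?_⟩
  · rw [hmp, natDegree_X_sub_C]
  · rw [hmp, Complex.conj_ofReal, map_sub, aeval_X, aeval_C]
    have h1 : ((Real.goldenRatio : ℝ) : ℂ)⁻¹ = -((Real.goldenConj : ℝ) : ℂ) := by
      rw [← Complex.ofReal_inv, Real.inv_goldenRatio, Complex.ofReal_neg]
    rw [h1]
    change -((Real.goldenConj : ℝ) : ℂ) - ((Real.goldenRatio : ℝ) : ℂ) ≠ 0
    have h2 : -((Real.goldenConj : ℝ) : ℂ) - ((Real.goldenRatio : ℝ) : ℂ) = -1 := by
      linear_combination -hsum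
    rw [h2]
    norm_num
  · rw [map_sub, map_sub, map_pow, aeval_X, map_one]
    have h1 : ((Real.goldenRatio : ℝ) : ℂ) ^ 2 = ((Real.goldenRatio : ℝ) : ℂ) + 1 := by
      exact_mod_cast Real.goldenRatio_sq
    rw [h1]
    ring
  · rw [sharp_map, mahlerMeasure_mul, mahlerMeasure_X_sub_C, mahlerMeasure_X_sub_C,
      sharp_poly_natDegree, Complex.norm_real, Complex.norm_real, Real.norm_eq_abs,
      Real.norm_eq_abs, abs_of_pos Real.goldenRatio_pos, abs_of_neg Real.goldenConj_neg,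
      max_eq_right Real.one_lt_goldenRatio.le, max_eq_left (by
        have := Real.neg_one_lt_goldenConj
        linarith), mul_one]
    norm_num

end Pool.Agent.R202.RS
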