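import Pool.Agent.R202.RS.Stm

/-!
# Project RS, piece RS-6: fields generated by numbers all of whose conjugates are unimodular
-/

set_option autoImplicit false

open Polynomial ComplexConjugate

namespace Pool.Agent.R202.RS

namespace UnitaryAux

theorem key (F : IntermediateField ℚ ℂ) (S : Set ℂ) (hF : RealOrCM F)
    (hS : ∀ s ∈ S, IsAlgebraic ℚ s ∧ ∀ w ∈ (minpoly ℚ s).aroots ℂ, ‖w‖ = 1)
    (x : ℂ) (hx : x ∈ IntermediateField.adjoin ℚ ((F : Set ℂ) ∪ S)) :
    ∃ h' : conj x ∈ IntermediateField.adjoin ℚ ((F : Set ℂ) ∪ S),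
      ∀ σ : (IntermediateField.adjoin ℚ ((F : Set ℂ) ∪ S)) →+* ℂ,
        conj (σ ⟨x, hx⟩) = σ ⟨conj x, h'⟩ := by
  induction hx using IntermediateField.adjoin_induction with
  | mem x hx =>
    rcases hx with hx | hx
    · obtain ⟨c, hc⟩ := hF
      have h0 := hc (algebraMap F ℂ) ⟨x, hx⟩
      have h1 : conj x = ((c ⟨x, hx⟩ : F) : ℂ) := h0
      have hmem : conj x ∈ (F : Set ℂ) := by rw [h1]; exact (c ⟨x, hx⟩).2
      refine ⟨IntermediateField.subset_adjoin _ _ (Or.inl hmem), fun σ => ?_⟩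
      have hle : F ≤ IntermediateField.adjoin ℚ ((F : Set ℂ) ∪ S) := fun y hy =>
        IntermediateField.subset_adjoin _ _ (Or.inl hy)
      have h2 := hc (σ.comp (IntermediateField.inclusion hle).toRingHom) ⟨x, hx⟩
      have h3 : (IntermediateField.inclusion hle).toRingHom (c ⟨x, hx⟩) =
          ⟨conj x, IntermediateField.subset_adjoin _ _ (Or.inl hmem)⟩ := by
        apply Subtype.ext
        exact h1.symm
      rw [RingHom.comp_apply, RingHom.comp_apply, h3] at h2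
      exact h2
    · obtain ⟨halg, hroot⟩ := hS x hx
      have hint : IsIntegral ℚ x := halg.isIntegral
      have hmp : minpoly ℚ x ≠ 0 := minpoly.ne_zero hint
      have hn : ‖x‖ = 1 := hroot x (by
        rw [Polynomial.mem_aroots]
        exact ⟨hmp, minpoly.aeval ℚ x⟩)
      have hinv : x⁻¹ = conj x := RCLike.inv_eq_conj hn
      have hxm : x ∈ IntermediateField.adjoin ℚ ((F : Set ℂ) ∪ S) :=
        IntermediateField.subset_adjoin _ _ (Or.inr hx)
      have hmem : conj x ∈ IntermediateField.adjoin ℚ ((F : Set ℂ) ∪ S) := by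
        rw [← hinv]
        exact inv_mem hxm
      refine ⟨hmem, fun σ => ?_⟩
      have h1 : (⟨conj x, hmem⟩ : IntermediateField.adjoin ℚ ((F : Set ℂ) ∪ S)) =
          (⟨x, hxm⟩ : IntermediateField.adjoin ℚ ((F : Set ℂ) ∪ S))⁻¹ := by
        apply Subtype.ext
        exact hinv.symm
      rw [h1, map_inv₀]
      have h2 : ‖σ ⟨x, hxm⟩‖ = 1 := by
        apply hroot
        rw [Polynomial.mem_aroots]
        refine ⟨hmp, ?_⟩
        have h3 : aeval (⟨x, hxm⟩ : IntermediateField.adjoin ℚ ((F : Set ℂ) ∪ S))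
            (minpoly ℚ x) = 0 := by
          apply Subtype.ext
          have h5 := Polynomial.aeval_algebraMap_apply ℂ
            (⟨x, hxm⟩ : IntermediateField.adjoin ℚ ((F : Set ℂ) ∪ S)) (minpoly ℚ x)
          exact h5.symm.trans (minpoly.aeval ℚ x)
        have h4 := Polynomial.aeval_algHom_apply σ.toRatAlgHom
          (⟨x, hxm⟩ : IntermediateField.adjoin ℚ ((F : Set ℂ) ∪ S)) (minpoly ℚ x)
        rw [h3, map_zero] at h4
        exact h4
      exact (RCLike.inv_eq_conj h2).symm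
  | algebraMap q =>
    have hc : conj (algebraMap ℚ ℂ q) = algebraMap ℚ ℂ q := by simp
    refine ⟨by rw [hc]; exact IntermediateField.algebraMap_mem _ q, fun σ => ?_⟩
    have h1 : ∀ (z : ℂ) (hz : z ∈ IntermediateField.adjoin ℚ ((F : Set ℂ) ∪ S)),
        z = algebraMap ℚ ℂ q → σ ⟨z, hz⟩ = (q : ℂ) := by
      intro z hz hzq
      have h2 : (⟨z, hz⟩ : IntermediateField.adjoin ℚ ((F : Set ℂ) ∪ S)) =
          algebraMap ℚ _ q := by
        apply Subtype.ext
        exact hzq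
      rw [h2]
      simp
    rw [h1 _ _ rfl, h1 _ _ hc]
    simp
  | add x y hx hy ihx ihy =>
    obtain ⟨hx', ihx⟩ := ihx
    obtain ⟨hy', ihy⟩ := ihy
    refine ⟨by rw [map_add]; exact add_mem hx' hy', fun σ => ?_⟩
    have e1 : (⟨x + y, add_mem hx hy⟩ : IntermediateField.adjoin ℚ ((F : Set ℂ) ∪ S)) =
      ⟨x, hx⟩ + ⟨y, hy⟩ := rfl
    have e2 : (⟨conj (x + y), by rw [map_add]; exact add_mem hx' hy'⟩ :
        IntermediateField.adjoin ℚ ((F : Set ℂ) ∪ S)) =
      ⟨conj x, hx'⟩ + ⟨conj y, hy'⟩ := Subtype.ext (map_add _ _ _)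
    rw [e1, e2, map_add, map_add, map_add, ihx σ, ihy σ]
  | inv x hx ih =>
    obtain ⟨hx', ih⟩ := ih
    refine ⟨by rw [map_inv₀]; exact inv_mem hx', fun σ => ?_⟩
    have e1 : (⟨x⁻¹, inv_mem hx⟩ : IntermediateField.adjoin ℚ ((F : Set ℂ) ∪ S)) =
      (⟨x, hx⟩ : IntermediateField.adjoin ℚ ((F : Set ℂ) ∪ S))⁻¹ := rfl
    have e2 : (⟨conj (x⁻¹), by rw [map_inv₀]; exact inv_mem hx'⟩ :
        IntermediateField.adjoin ℚ ((F : Set ℂ) ∪ S)) =
      (⟨conj x, hx'⟩ : IntermediateField.adjoin ℚ ((F : Set ℂ) ∪ S))⁻¹ :=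
      Subtype.ext (map_inv₀ _ _)
    rw [e1, e2, map_inv₀, map_inv₀, map_inv₀, ih σ]
  | mul x y hx hy ihx ihy =>
    obtain ⟨hx', ihx⟩ := ihx
    obtain ⟨hy', ihy⟩ := ihy
    refine ⟨by rw [map_mul]; exact mul_mem hx' hy', fun σ => ?_⟩
    have e1 : (⟨x * y, mul_mem hx hy⟩ : IntermediateField.adjoin ℚ ((F : Set ℂ) ∪ S)) =
      ⟨x, hx⟩ * ⟨y, hy⟩ := rfl
    have e2 : (⟨conj (x * y), by rw [map_mul]; exact mul_mem hx' hy'⟩ :
        IntermediateField.adjoin ℚ ((F : Set ℂ) ∪ S)) =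
      ⟨conj x, hx'⟩ * ⟨conj y, hy'⟩ := Subtype.ext (map_mul _ _ _)
    rw [e1, e2, map_mul, map_mul, map_mul, ihx σ, ihy σ]

end UnitaryAux

theorem unitary : UnitaryStm := by
  intro F S hF hS
  have hk := UnitaryAux.key F S hF hS
  have hL : F ⊔ IntermediateField.adjoin ℚ S =
      IntermediateField.adjoin ℚ ((F : Set ℂ) ∪ S) := by
    rw [IntermediateField.adjoin_union, IntermediateField.adjoin_self]
  rw [hL]
  refine ⟨⟨⟨⟨fun y => ⟨conj (y : ℂ), (hk y y.2).1⟩, ?_⟩, ?_⟩, ?_, ?_⟩, ?_⟩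
  · exact Subtype.ext (map_one _)
  · intro a b
    exact Subtype.ext (map_mul _ _ _)
  · exact Subtype.ext (map_zero _)
  · intro a b
    exact Subtype.ext (map_add _ _ _)
  · intro σ y
    exact (hk y y.2).2 σ

end Pool.Agent.R202.RS
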